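import Pool.Agent.Helper66.HK.Stmts

namespace Pool.Agent.Helper66.HK

theorem bin_aux (n : ℕ) : ((n.centralBinom : ℝ) / 4 ^ n) ^ 2 * (2 * n + 1) ≤ 1 := by
  induction n with
  | zero => simp
  | succ n ih =>
    have h1 : ((n : ℝ) + 1) * ((n + 1).centralBinom : ℝ) = 2 * (2 * n + 1) * n.centralBinom := by
      have := Nat.succ_mul_centralBinom_succ n
      exact_mod_cast this
    have h2 : ((n + 1).centralBinom : ℝ) / 4 ^ (n + 1) =
        (n.centralBinom : ℝ) / 4 ^ n * ((2 * n + 1) / (2 * n + 2)) := by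
      have h3 : ((n + 1).centralBinom : ℝ) = 2 * (2 * n + 1) * n.centralBinom / (n + 1) := by
        rw [eq_div_iff (by positivity)]
        linarith
      rw [h3, pow_succ]
      field_simp
      ring
    rw [h2]
    set c := (n.centralBinom : ℝ) / 4 ^ n
    push_cast
    have h4 : (c * ((2 * (n : ℝ) + 1) / (2 * n + 2))) ^ 2 * (2 * ((n : ℝ) + 1) + 1) =
        (c ^ 2 * (2 * n + 1)) * ((2 * n + 1) * (2 * n + 3) / (2 * n + 2) ^ 2) := by
      field_simp
      ring
    rw [h4]
    have h5 : (2 * (n : ℝ) + 1) * (2 * n + 3) / (2 * n + 2) ^ 2 ≤ 1 := by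
      rw [div_le_one (by positivity)]
      nlinarith
    have h6 : 0 ≤ (2 * (n : ℝ) + 1) * (2 * n + 3) / (2 * n + 2) ^ 2 := by positivity
    have h7 : 0 ≤ c ^ 2 * (2 * (n : ℝ) + 1) := by positivity
    nlinarith

theorem st_BIN : ST_BIN := by
  intro ε hε
  obtain ⟨k, hk⟩ := exists_nat_gt (2 / ε ^ 2)
  refine ⟨k, ?_⟩
  have h1 := bin_aux (k + 1)
  have h2 : 2 * ((2 * k + 1).choose (k + 1) : ℝ) = ((k + 1).centralBinom : ℝ) := by
    have h3 : (k + 1).centralBinom = (2 * k + 1).choose k + (2 * k + 1).choose (k + 1) := by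
      rw [Nat.centralBinom_eq_two_mul_choose]
      exact Nat.choose_succ_succ' (2 * k + 1) k
    have h4 := Nat.choose_symm_half k
    rw [h3, ← h4]
    push_cast
    ring
  set b : ℝ := ((2 * k + 1).choose (k + 1) : ℝ) / 4 ^ k with hb
  have h3 : ((k + 1).centralBinom : ℝ) / 4 ^ (k + 1) = b / 2 := by
    rw [← h2, hb, pow_succ]
    field_simp
    ring
  rw [h3] at h1
  push_cast at h1
  have hb0 : 0 ≤ b := by positivity
  have h4 : b ^ 2 * k ≤ 2 := by nlinarith [sq_nonneg b]
  have h5 : b ≤ ε := by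
    by_contra h
    push Not at h
    have h6 : ε ^ 2 < b ^ 2 := by nlinarith
    have hε2 : 0 < ε ^ 2 := by positivity
    rw [div_lt_iff₀ hε2] at hk
    have hk0 : 0 < (k : ℝ) := by
      by_contra h0
      push Not at h0
      nlinarith
    nlinarith
  rw [hb, div_le_iff₀ (by positivity)] at h5
  exact h5

end Pool.Agent.Helper66.HK
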