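import Pool.Agent.Helper66.HK.Stmts

namespace Pool.Agent.Helper66.HK

open Finset Pool.Agent.Helper69.RK

theorem con_final (P B C γ ν s c ε κ m k w nn M : ℝ) (hP : 1 ≤ P) (hB0 : 0 ≤ B) (hB : B ≤ ε * P)
    (hC : 0 ≤ C) (hγ : 0 < γ) (hs : 0 ≤ s) (hc : 0 ≤ c) (hm : 0 ≤ m) (_hM : 0 < M)
    (hw : w ≤ nn / M) (hn : 4 * C / γ + 1 ≤ nn)
    (h1 : ε * |ν| ≤ γ / 16) (h2 : m / M ≤ γ / 16) (h3 : m * (k + 1) * κ ≤ γ / 16)
    (h4 : s * (1 + m * (2 * k + 1) + (1 + ε) * c) ≤ γ / 16)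
    (h : P * ((γ + ν - s) * nn - m * (w + (k + 1) * κ * nn + (2 * k + 1) * s * nn)) - C ≤
      (P + B) * ((ν + c * s) * nn)) : False := by
  have hnn : 0 < nn := by
    have : 0 ≤ 4 * C / γ := by positivity
    linarith
  have e1 : B * (ν + c * s) ≤ ε * P * (|ν| + c * s) := by
    have a1 : ν + c * s ≤ |ν| + c * s := by linarith [le_abs_self ν]
    have a2 : 0 ≤ |ν| + c * s := by positivity
    calc B * (ν + c * s) ≤ B * (|ν| + c * s) := mul_le_mul_of_nonneg_left a1 hB0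
      _ ≤ ε * P * (|ν| + c * s) := mul_le_mul_of_nonneg_right hB a2
  have e2 : (P + B) * ((ν + c * s) * nn) ≤ P * (ν + c * s) * nn + ε * P * (|ν| + c * s) * nn := by
    have := mul_le_mul_of_nonneg_right e1 hnn.le
    nlinarith
  have e3 : m * w ≤ m / M * nn := by
    calc m * w ≤ m * (nn / M) := mul_le_mul_of_nonneg_left hw hm
      _ = m / M * nn := by ring
  have e4 : P * nn * (γ - s * (1 + m * (2 * k + 1) + (1 + ε) * c) - m / M - m * (k + 1) * κ -
      ε * |ν|) ≤ C := by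
    have a1 : P * (m * w) ≤ P * (m / M * nn) := mul_le_mul_of_nonneg_left e3 (by linarith)
    nlinarith
  have e5 : 3 * γ / 4 ≤ γ - s * (1 + m * (2 * k + 1) + (1 + ε) * c) - m / M - m * (k + 1) * κ -
      ε * |ν| := by linarith
  have e6 : P * nn * (3 * γ / 4) ≤ C :=
    (mul_le_mul_of_nonneg_left e5 (by positivity)).trans e4
  have e7 : nn * (3 * γ / 4) ≤ P * nn * (3 * γ / 4) := by
    have : 0 ≤ nn * (3 * γ / 4) := by positivity
    nlinarith
  have e8 : 4 * C + γ ≤ nn * γ := by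
    have a1 := mul_le_mul_of_nonneg_right hn hγ.le
    have a2 : (4 * C / γ + 1) * γ = 4 * C + γ := by field_simp
    linarith
  nlinarith

theorem st_CON (h1 : ST_CD) (h2 : ST_INQ) (h3 : ST_BIN) : ST_CON := by
  intro m γ ν hγ hG hN hnot
  set ε : ℝ := γ / (16 * (|ν| + 1)) with hε
  have hν1 : 0 < |ν| + 1 := by positivity
  have hε0 : 0 < ε := by positivity
  obtain ⟨k, hk⟩ := h3 ε hε0
  obtain ⟨C, hC, hI⟩ := h2 m k
  obtain ⟨M0, hM0⟩ := exists_nat_ge (16 * m / γ)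
  set M : ℕ := M0 + 2 with hM
  set κ : ℝ := min (1 / 4) (γ / (16 * ((m + 1) * (k + 1)))) with hκ
  have hκ0 : 0 < κ := by
    rw [hκ]
    exact lt_min (by norm_num) (by positivity)
  set D : ℝ := 1 + m * (2 * k + 1) + (1 + ε) * 4 ^ (2 * k + 3) with hD
  have hD0 : 0 < D := by positivity
  set s : ℝ := γ / (16 * D) with hs
  have hs0 : 0 < s := by positivity
  obtain ⟨n0, hn0⟩ := exists_nat_ge (4 * C / γ + 1)
  obtain ⟨n, hn, Ω, ct, kt, _, μ, c, K, a, x, t, Λ, p, hcd⟩ := h1 m γ ν hG hN hnot (2 * k + 1) M κ s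
    (by omega) hκ0 (min_le_left _ _) hs0 n0
  have hfin := hI n (n / M) γ ν κ s Ω ct kt μ c K a x t Λ p (Nat.div_le_self _ _) hκ0.le hs0.le hcd
  have hMR : (M : ℝ) = M0 + 2 := by rw [hM]; push_cast; ring
  have hMpos : (0 : ℝ) < M := by rw [hMR]; positivity
  refine con_final ((4 : ℝ) ^ k) (((2 * k + 1).choose (k + 1) : ℕ) : ℝ) C γ ν s
    ((4 : ℝ) ^ (2 * k + 3)) ε κ m k ((n / M : ℕ) : ℝ) n M (one_le_pow₀ (by norm_num))
    (Nat.cast_nonneg _) hk hC hγ hs0.le (by positivity) (Nat.cast_nonneg _) hMpos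
    Nat.cast_div_le ?_ ?_ ?_ ?_ ?_ hfin
  · refine hn0.trans ?_
    exact_mod_cast hn
  · rw [hε, div_mul_eq_mul_div, div_le_div_iff₀ (by positivity) (by norm_num)]
    nlinarith [abs_nonneg ν]
  · rw [div_le_div_iff₀ hMpos (by norm_num), hMR]
    rw [div_le_iff₀ hγ] at hM0
    nlinarith
  · have a1 : κ ≤ γ / (16 * ((m + 1) * (k + 1))) := min_le_right _ _
    calc (m : ℝ) * (k + 1) * κ ≤ m * (k + 1) * (γ / (16 * ((m + 1) * (k + 1)))) :=
          mul_le_mul_of_nonneg_left a1 (by positivity)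
      _ = m / (m + 1) * (γ / 16) := by field_simp
      _ ≤ 1 * (γ / 16) := by
          refine mul_le_mul_of_nonneg_right ?_ (by positivity)
          rw [div_le_one (by positivity)]
          linarith
      _ = γ / 16 := one_mul _
  · have a1 : (1 : ℝ) + m * (2 * k + 1) + (1 + ε) * 4 ^ (2 * k + 3) = D := rfl
    rw [a1, hs]
    apply le_of_eq
    field_simp

end Pool.Agent.Helper66.HK
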