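import Pool.Agent.Helper66.HK.Stmts

namespace Pool.Agent.Helper66.HK

open Finset Pool.Agent.Helper69.RK

theorem gap_limit (m : ℕ) (γ : ℝ) (h : ∀ δ : ℝ, 0 < δ → ∃ γ', γ' < γ + δ ∧ GapH m γ') :
    GapH m γ := by
  intro ε hε
  obtain ⟨γ', h1, h2⟩ := h (ε / 2) (by linarith)
  obtain ⟨η, hη, n0, h3⟩ := h2 (ε / 2) (by linarith)
  refine ⟨η, hη, n0, fun n hn Ω ζ _ μ Z a x t hs => ?_⟩
  refine (h3 n hn Ω ζ μ Z a x t hs).trans ?_
  exact mul_le_mul_of_nonneg_right (by linarith) (Nat.cast_nonneg _)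

theorem gap_limit' (m : ℕ) (γ ν : ℝ) (h : ∀ δ : ℝ, 0 < δ → ∃ ν', ν' < ν + δ ∧ NB m γ ν') :
    NB m γ ν := by
  intro ε hε
  obtain ⟨ν', h1, h2⟩ := h (ε / 2) (by linarith)
  obtain ⟨η, hη, n0, h3⟩ := h2 (ε / 2) (by linarith)
  refine ⟨η, hη, n0, fun n hn Ω ζ θ _ μ Z a x t Θ Λ hs h4 h5 => ?_⟩
  refine (h3 n hn Ω ζ θ μ Z a x t Θ Λ hs h4 h5).trans ?_
  exact mul_le_mul_of_nonneg_right (by linarith) (Nat.cast_nonneg _)

theorem st_GAP (h1 : ST_CON) (h2 : ST_NBZ) (h3 : ST_GHZ) : ST_GAP := by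
  intro m
  obtain ⟨⟨γ₀, hγ₀⟩, hpos⟩ := h3 m
  set G : Set ℝ := {γ | GapH m γ} with hG
  have hne : G.Nonempty := ⟨γ₀, hγ₀⟩
  have hbd : BddBelow G := ⟨0, fun γ hγ => hpos γ hγ⟩
  have hin : GapH m (sInf G) := by
    apply gap_limit
    intro δ hδ
    obtain ⟨γ', h4, h5⟩ := exists_lt_of_csInf_lt hne (show sInf G < sInf G + δ by linarith)
    exact ⟨γ', h5, h4⟩
  have h0 : 0 ≤ sInf G := hpos _ hin
  rcases h0.eq_or_lt with h | h
  · rw [h]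
    exact hin
  exfalso
  have hnot : ∀ δ : ℝ, 0 < δ → ¬ GapH m (sInf G - δ) := by
    intro δ hδ hc
    have := csInf_le hbd (show sInf G - δ ∈ G from hc)
    linarith
  obtain ⟨⟨ν₀, hν₀⟩, hposν⟩ := h2 m (sInf G) hnot
  set N : Set ℝ := {ν | NB m (sInf G) ν} with hN
  have hneN : N.Nonempty := ⟨ν₀, hν₀⟩
  have hbdN : BddBelow N := ⟨0, fun ν hν => hposν ν hν⟩
  have hinN : NB m (sInf G) (sInf N) := by
    apply gap_limit'
    intro δ hδ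
    obtain ⟨ν', h4, h5⟩ := exists_lt_of_csInf_lt hneN (show sInf N < sInf N + δ by linarith)
    exact ⟨ν', h5, h4⟩
  refine h1 m (sInf G) (sInf N) h hin hinN fun δ hδ hc => ?_
  have := csInf_le hbdN (show sInf N - δ ∈ N from hc)
  linarith

end Pool.Agent.Helper66.HK
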