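import Pool.Agent.Helper66.HK.Stmts

namespace Pool.Agent.Helper66.HK

open Finset Pool.Agent.Helper69.RK

theorem smp_card {Ω : Type} [Fintype Ω] (inst : DecidableEq ℤ) (s : Finset Ω) (p : Ω → ℤ) (x : ℝ)
    (hx : 1 ≤ x) (h : ∀ ω ∈ s, |(p ω : ℝ)| ≤ x) :
    ((@Finset.image Ω ℤ inst p s).card : ℝ) ≤ 3 * x := by
  have h1 : @Finset.image Ω ℤ inst p s ⊆ Finset.Icc (-(⌊x⌋₊ : ℤ)) (⌊x⌋₊ : ℤ) := by
    intro y hy
    obtain ⟨ω, hω, rfl⟩ := Finset.mem_image.1 hy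
    have h2 := h ω hω
    have h3 : (p ω).natAbs ≤ ⌊x⌋₊ := by
      apply Nat.le_floor
      rw [Nat.cast_natAbs, Int.cast_abs]
      exact h2
    rw [Finset.mem_Icc]
    omega
  have h2 := Finset.card_le_card h1
  rw [Int.card_Icc] at h2
  have h3 : ((@Finset.image Ω ℤ inst p s).card : ℝ) ≤ 2 * (⌊x⌋₊ : ℝ) + 1 := by
    have h4 : (@Finset.image Ω ℤ inst p s).card ≤ 2 * ⌊x⌋₊ + 1 := by omega
    exact_mod_cast h4
  have h4 : (⌊x⌋₊ : ℝ) ≤ x := Nat.floor_le (by linarith)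
  linarith

theorem st_SMP (_h1 : ST_E1) (h3 : ST_E3) (h4 : ST_E4) : ST_SMP := by
  classical
  intro Ω γ _ μ p g N K E hμ hm hK hN hp hE
  set B : Ω → Prop := fun ω => |(p ω : ℝ)| * (2 : ℝ) ^ K < N with hB
  have h2K : (0 : ℝ) < (2 : ℝ) ^ K := Real.rpow_pos_of_pos (by norm_num) K
  have h2K1 : (1 : ℝ) ≤ (2 : ℝ) ^ K := Real.one_le_rpow (by norm_num) hK.le
  have hN1 : (1 : ℝ) ≤ N := h2K1.trans hN
  have hNK : 1 ≤ (N : ℝ) / (2 : ℝ) ^ K := by
    rw [le_div_iff₀ h2K, one_mul]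
    exact hN
  have hres : ∀ (F : Ω → Prop) ω, 0 ≤ res μ F ω := by
    intro F ω
    unfold res
    split_ifs
    · exact hμ ω
    · exact le_rfl
  have hmB := (h4.2.2 Ω μ B hμ)
  have hu := (h4.2.1 Ω ℤ γ μ p g B hμ).2
  have e1 : CH (res μ B) p g ≤ ∑ ω, res μ B ω * Real.logb 2 (3 * ((N : ℝ) / (2 : ℝ) ^ K)) := by
    refine h3.1 Ω ℤ γ (res μ B) p g (fun _ => 3 * ((N : ℝ) / (2 : ℝ) ^ K)) (hres B)
      fun ω _ => ?_
    refine smp_card _ _ p _ hNK fun ω' hω' => ?_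
    have h5 := (Finset.mem_filter.1 hω').2.1
    have h6 : B ω' := by
      by_contra hc
      exact h5 (by unfold res; rw [if_neg hc])
    rw [le_div_iff₀ h2K]
    exact le_of_lt h6
  have e2 : CH (res μ fun ω => ¬ B ω) p g ≤
      ∑ ω, res μ (fun ω => ¬ B ω) ω * Real.logb 2 (3 * (N : ℝ)) := by
    refine h3.1 Ω ℤ γ (res μ fun ω => ¬ B ω) p g (fun _ => 3 * (N : ℝ)) (hres _) fun ω _ => ?_
    refine smp_card _ _ p _ hN1 fun ω' hω' => ?_
    have h5 := (Finset.mem_filter.1 hω').2.1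
    have h6 : μ ω' ≠ 0 := by
      intro hc
      apply h5
      unfold res
      split_ifs
      · exact hc
      · rfl
    have h7 := hp ω' h6
    rw [← Int.cast_abs]
    exact_mod_cast h7
  rw [← Finset.sum_mul] at e1 e2
  have hb : ∑ ω, res μ B ω = mass (res μ B) := rfl
  have hb' : ∑ ω, res μ (fun ω => ¬ B ω) ω = mass (res μ fun ω => ¬ B ω) := rfl
  rw [hb] at e1
  rw [hb'] at e2
  set β := mass (res μ B) with hβ
  have hβ' : mass (res μ fun ω => ¬ B ω) = 1 - β := by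
    have := hmB.1
    rw [hm] at this
    linarith
  rw [hβ'] at e2
  have hN0 : (N : ℝ) ≠ 0 := by linarith
  have l1 : Real.logb 2 (3 * ((N : ℝ) / (2 : ℝ) ^ K)) = Real.logb 2 3 + Real.logb 2 N - K := by
    rw [Real.logb_mul (by norm_num) (by positivity), Real.logb_div hN0 h2K.ne',
      Real.logb_rpow (by norm_num) (by norm_num)]
    ring
  have l2 : Real.logb 2 (3 * (N : ℝ)) = Real.logb 2 3 + Real.logb 2 N := by
    rw [Real.logb_mul (by norm_num) hN0]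
  have l3 : Real.logb 2 3 ≤ 2 := by
    rw [Real.logb_le_iff_le_rpow (by norm_num) (by norm_num)]
    norm_num
  rw [l1] at e1
  rw [l2] at e2
  rw [hm] at hu
  nlinarith

end Pool.Agent.Helper66.HK
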